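import Pool.Agent.W262.SH.StmB
import Pool.Agent.W214.RK.Half

/-!
Project SHB (helper262), problem MP_78d38b_nt: part SB-RKK (helper654). Ranks over multiquadratic
fields and ranks of the twists, by induction on the number of square roots.
-/

set_option autoImplicit false

open WeierstrassCurve Pool.Agent.W262.SH
open scoped Classical

namespace Pool.Agent.W654.SHB

/-- a point fixed by `σ` comes from the fixed field of `σ` -/
theorem descend (W : WeierstrassCurve ℚ) {L M : Type} [Field L] [Field M] [Algebra ℚ L]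
    [Algebra ℚ M] (j : L →ₐ[ℚ] M) (σ : M →ₐ[ℚ] M) (hfix : ∀ x, σ x = x → ∃ y, j y = x)
    (P : Pt W M) (hP : act W σ P = P) : ∃ Q, act W j Q = P := by
  rcases P with _ | ⟨x, y, h⟩
  · exact ⟨0, rfl⟩
  · have h1 : act W σ (.some x y h) = .some (σ x) (σ y)
        ((W.toAffine.baseChange_nonsingular σ.injective x y).2 h) := rfl
    rw [h1, Affine.Point.some.injEq] at hP
    obtain ⟨x', rfl⟩ := hfix x hP.1
    obtain ⟨y', rfl⟩ := hfix y hP.2
    exact ⟨.some x' y' ((W.toAffine.baseChange_nonsingular j.injective x' y').1 h), rfl⟩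

theorem galGen (k : Type) [Field k] [CharZero k] : IsGalois k (AlgebraicClosure k) :=
  IsAlgClosure.isGalois k (AlgebraicClosure k)

theorem galQB : IsGalois ℚ QB := by
  have h := galGen ℚ
  have e : (AlgebraicClosure.instAlgebra ℚ : Algebra ℚ (AlgebraicClosure ℚ)) =
    DivisionRing.toRatAlgebra := Subsingleton.elim _ _
  exact e ▸ h

/-- the rank, with the classical decidability of equality -/
noncomputable def rkc (W : WeierstrassCurve ℚ) (L : Type) [Field L] [Algebra ℚ L] : Cardinal :=
  Module.rank ℤ (Pt W L)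

theorem rk_eq (W : WeierstrassCurve ℚ) (L : Type) [Field L] [Algebra ℚ L] [i : DecidableEq L] :
    Module.rank ℤ (Pt W L) = rkc W L := by
  unfold rkc
  cases Subsingleton.elim i (fun a b => Classical.propDecidable (a = b))
  rfl

/-- the rank over a quadratic extension -/
theorem step (hT : TWI) {A B D : ℤ} (hA : A ≠ 0) (hB : B ≠ 0) (hAB : A ≠ B) (hD : D ≠ 0)
    {L M : Type} [Field L] [Field M] [Algebra ℚ L] [Algebra ℚ M] (j : L →ₐ[ℚ] M) (σ : M →ₐ[ℚ] M)
    (hσ : ∀ x, σ (σ x) = x) (hfix : ∀ x, σ x = x → ∃ y, j y = x) (s : M)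
    (hs : s ^ 2 = (D : M)) (hσs : σ s = -s) :
    rkc (E A B) M ≤ rkc (E A B) L + rkc (E (D * A) (D * B)) L := by
  unfold rkc
  obtain ⟨θ, hθ⟩ := hT A B D hA hB hAB hD
  obtain ⟨hadd, hbij, hneg, hnat⟩ := hθ M s hs
  set f : Pt (E A B) M →+ Pt (E A B) M := AddMonoidHom.id _ + act (E A B) σ with hf
  have hσσ : ∀ P, act (E A B) σ (act (E A B) σ P) = P := by
    intro P
    rcases P with _ | ⟨x, y, h⟩
    · rfl
    · have h1 : act (E A B) σ (act (E A B) σ (.some x y h)) = .some (σ (σ x)) (σ (σ y))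
          (((E A B).toAffine.baseChange_nonsingular σ.injective _ _).2
            (((E A B).toAffine.baseChange_nonsingular σ.injective x y).2 h)) := rfl
      rw [h1, Affine.Point.some.injEq]
      exact ⟨hσ x, hσ y⟩
  set g : Pt (E A B) M →+ Pt (E (D * A) (D * B)) M := AddMonoidHom.mk' (θ M s) hadd with hg
  rw [← f.toIntLinearMap.rank_range_add_rank_ker]
  refine add_le_add ?_ ?_
  · have h1 : LinearMap.range f.toIntLinearMap ≤
        LinearMap.range (act (E A B) j).toIntLinearMap := by
      rintro _ ⟨P, rfl⟩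
      have h2 : act (E A B) σ (P + act (E A B) σ P) = P + act (E A B) σ P := by
        rw [map_add, hσσ, add_comm]
      obtain ⟨Q, hQ⟩ := descend (E A B) j σ hfix _ h2
      exact ⟨Q, hQ⟩
    exact (Submodule.rank_mono h1).trans (rank_range_le _)
  · have hinj : Function.Injective g.toIntLinearMap := hbij.1
    have h1 : (LinearMap.ker f.toIntLinearMap).map g.toIntLinearMap ≤
        LinearMap.range (act (E (D * A) (D * B)) j).toIntLinearMap := by
      rintro _ ⟨P, hP, rfl⟩
      have hP0 : P + act (E A B) σ P = 0 := hP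
      have hP1 : act (E A B) σ P = -P := (neg_eq_of_add_eq_zero_right hP0).symm
      have h2 : act (E (D * A) (D * B)) σ (θ M s P) = θ M s P := by
        rw [hnat M σ P, hσs, hneg, hP1]
        have h3 : g (-P) = - g P := map_neg g P
        have h4 : θ M s (-P) = - θ M s P := h3
        rw [h4, neg_neg]
      obtain ⟨Q, hQ⟩ := descend (E (D * A) (D * B)) j σ hfix _ h2
      exact ⟨Q, hQ⟩
    rw [LinearEquiv.rank_eq (Submodule.equivMapOfInjective g.toIntLinearMap hinj
      (LinearMap.ker f.toIntLinearMap))]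
    exact (Submodule.rank_mono h1).trans (rank_range_le _)

theorem rk_inj (W : WeierstrassCurve ℚ) {L M : Type} [Field L] [Field M] [Algebra ℚ L]
    [Algebra ℚ M] (j : L →ₐ[ℚ] M) : rkc W L ≤ rkc W M := by
  unfold rkc
  have h : Function.Injective (act W j).toIntLinearMap :=
    Affine.Point.map_injective (W' := W.toAffine) j
  exact LinearMap.rank_le_of_injective (act W j).toIntLinearMap h

theorem gen_mem {n : ℕ} (D : Fin n → ℤ) {r : QB} {i : Fin n} (h : r ^ 2 = (D i : QB)) :
    r ∈ KD D := IntermediateField.subset_adjoin _ _ ⟨i, h⟩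

theorem stable {n : ℕ} (D : Fin n → ℤ) (g : QB →ₐ[ℚ] QB) {x : QB} (hx : x ∈ KD D) :
    g x ∈ KD D := by
  have h : KD D ≤ (KD D).comap g := by
    refine IntermediateField.adjoin_le_iff.2 ?_
    rintro r ⟨i, hr⟩
    show g r ∈ KD D
    exact gen_mem D (i := i) (by rw [← map_pow, hr]; simp)
  exact h hx

theorem sq_eq {a b : QB} (h : a ^ 2 = b ^ 2) : a = b ∨ a = -b := sq_eq_sq_iff_eq_or_eq_neg.1 h

theorem fixes {n : ℕ} (D : Fin (n + 1) → ℤ) (s : QB) (hs : s ^ 2 = (D 0 : QB))
    (g : QB ≃ₐ[ℚ] QB) (hg : ∀ x ∈ KD (fun i : Fin n => D i.succ), g x = x) (hgs : g s = s) :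
    ∀ x ∈ KD D, g x = x := by
  intro x hx
  unfold KD at hx
  induction hx using IntermediateField.adjoin_induction with
  | mem r hr =>
    obtain ⟨i, hr⟩ := hr
    rcases Fin.eq_zero_or_eq_succ i with rfl | ⟨k, rfl⟩
    · rcases sq_eq (hr.trans hs.symm) with h | h
      · rw [h, hgs]
      · rw [h, map_neg, hgs]
    · exact hg r (gen_mem (fun i : Fin n => D i.succ) hr)
  | algebraMap q => exact g.commutes q
  | add x y _ _ h1 h2 => rw [map_add, h1, h2]
  | inv x _ h1 => rw [map_inv₀, h1]
  | mul x y _ _ h1 h2 => rw [map_mul, h1, h2]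

theorem kd_le {n : ℕ} (D : Fin (n + 1) → ℤ) : KD (fun i : Fin n => D i.succ) ≤ KD D := by
  refine IntermediateField.adjoin_le_iff.2 ?_
  rintro r ⟨i, hr⟩
  exact gen_mem D (i := i.succ) hr

theorem kd_step (hT : TWI) (n : ℕ) (D : Fin (n + 1) → ℤ) {A B : ℤ} (hA : A ≠ 0) (hB : B ≠ 0)
    (hAB : A ≠ B) (hD : D 0 ≠ 0) :
    Module.rank ℤ (Pt (E A B) (KD D)) ≤
      Module.rank ℤ (Pt (E A B) (KD (fun i : Fin n => D i.succ))) +
      Module.rank ℤ (Pt (E (D 0 * A) (D 0 * B)) (KD (fun i : Fin n => D i.succ))) := by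
  have := galQB
  rw [rk_eq, rk_eq, rk_eq]
  obtain ⟨s, hs⟩ : ∃ s : QB, s ^ 2 = (D 0 : QB) := IsAlgClosed.exists_pow_nat_eq _ (by norm_num)
  by_cases hsK : s ∈ KD (fun i : Fin n => D i.succ)
  · have hK : KD D = KD (fun i : Fin n => D i.succ) := by
      refine le_antisymm ?_ (kd_le D)
      refine IntermediateField.adjoin_le_iff.2 ?_
      rintro r ⟨i, hr⟩
      rcases Fin.eq_zero_or_eq_succ i with rfl | ⟨k, rfl⟩
      · rcases sq_eq (hr.trans hs.symm) with h | h
        · rw [h]; exact hsK
        · rw [h]; exact neg_mem hsK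
      · exact gen_mem (fun i : Fin n => D i.succ) hr
    rw [hK]
    exact self_le_add_right _ _
  · have h1 : ∃ τ ∈ (KD (fun i : Fin n => D i.succ)).fixingSubgroup, τ s ≠ s := by
      by_contra hcon
      push Not at hcon
      apply hsK
      rw [← InfiniteGalois.fixedField_fixingSubgroup (KD (fun i : Fin n => D i.succ))]
      rw [IntermediateField.mem_fixedField_iff]
      exact hcon
    obtain ⟨τ, hτ, hτs⟩ := h1
    have hτK : ∀ x ∈ KD (fun i : Fin n => D i.succ), τ x = x :=
      (IntermediateField.mem_fixingSubgroup_iff _ _).1 hτ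
    have hτs2 : τ s = -s := by
      have h2 : (τ s) ^ 2 = s ^ 2 := by rw [← map_pow, hs]; simp
      rcases sq_eq h2 with h | h
      · exact absurd h hτs
      · exact h
    set σ : KD D →ₐ[ℚ] KD D := (τ.toAlgHom.comp (KD D).val).codRestrict (KD D).toSubalgebra
      (fun x => stable D τ.toAlgHom x.2) with hσ
    have hσv : ∀ x : KD D, ((σ x : KD D) : QB) = τ (x : QB) := fun x => rfl
    refine step hT hA hB hAB hD (IntermediateField.inclusion (kd_le D)) σ ?_ ?_
      ⟨s, gen_mem D hs⟩ ?_ ?_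
    · intro x
      apply Subtype.ext
      rw [hσv, hσv]
      refine fixes D s hs (τ * τ) ?_ ?_ x x.2
      · intro y hy
        show τ (τ y) = y
        rw [hτK y hy, hτK y hy]
      · show τ (τ s) = s
        rw [hτs2, map_neg, hτs2, neg_neg]
    · intro x hx
      have hx' : τ (x : QB) = x := by
        have := congrArg (fun z : KD D => (z : QB)) hx
        exact this
      have hxK : (x : QB) ∈ KD (fun i : Fin n => D i.succ) := by
        rw [← InfiniteGalois.fixedField_fixingSubgroup (KD (fun i : Fin n => D i.succ))]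
        rw [IntermediateField.mem_fixedField_iff]
        intro g hg
        have hgK : ∀ x ∈ KD (fun i : Fin n => D i.succ), g x = x :=
          (IntermediateField.mem_fixingSubgroup_iff _ _).1 hg
        have h2 : (g s) ^ 2 = s ^ 2 := by rw [← map_pow, hs]; simp
        rcases sq_eq h2 with h | h
        · exact fixes D s hs g hgK h x x.2
        · have h3 := fixes D s hs (τ⁻¹ * g) (fun y hy => by
            show τ⁻¹ (g y) = y
            rw [hgK y hy]
            exact (AlgEquiv.symm_apply_eq τ).2 (hτK y hy).symm) (by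
            show τ⁻¹ (g s) = s
            rw [h]
            exact (AlgEquiv.symm_apply_eq τ).2 hτs2.symm) x x.2
          have h4 : τ⁻¹ (g (x : QB)) = x := h3
          have h5 : g (x : QB) = τ x := (AlgEquiv.symm_apply_eq τ).1 h4
          rw [h5, hx']
      exact ⟨⟨x, hxK⟩, Subtype.ext rfl⟩
    · apply Subtype.ext
      show s ^ 2 = _
      rw [hs]
      simp
    · apply Subtype.ext
      rw [hσv]
      exact hτs2

theorem rank_le (hT : TWI) : ∀ (n : ℕ) (D : Fin n → ℤ) (A B : ℤ), A ≠ 0 → B ≠ 0 → A ≠ B →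
    (∀ i, D i ≠ 0) → Module.rank ℤ (Pt (E A B) (KD D)) ≤ ∑ S : Finset (Fin n),
      Module.rank ℤ (E ((∏ i ∈ S, D i) * A) ((∏ i ∈ S, D i) * B)).toAffine.Point := by
  intro n
  induction n with
  | zero =>
    intro D A B hA hB hAB hD
    have hK : KD D = ⊥ := by
      rw [eq_bot_iff]
      refine IntermediateField.adjoin_le_iff.2 ?_
      rintro r ⟨i, _⟩
      exact i.elim0
    set φ : KD D →ₐ[ℚ] ℚ := ((IntermediateField.equivOfEq hK).trans
      (IntermediateField.botEquiv ℚ QB)).toAlgHom with hφ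
    have h1 : Module.rank ℤ (Pt (E A B) (KD D)) ≤ Module.rank ℤ (Pt (E A B) ℚ) := by
      rw [rk_eq, rk_eq]
      exact rk_inj (E A B) φ
    have h2 : (E A B).baseChange ℚ = E A B := by
      unfold WeierstrassCurve.baseChange
      exact WeierstrassCurve.map_id _
    have h3 : Module.rank ℤ (Pt (E A B) ℚ) = Module.rank ℤ (E A B).toAffine.Point :=
      congrArg (fun W : WeierstrassCurve ℚ => Module.rank ℤ W.toAffine.Point) h2
    rw [h3] at h1
    refine h1.trans ?_
    have e : (∏ i ∈ (∅ : Finset (Fin 0)), D i) = 1 := Finset.prod_empty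
    have h4 : Module.rank ℤ (E ((∏ i ∈ (∅ : Finset (Fin 0)), D i) * A)
        ((∏ i ∈ (∅ : Finset (Fin 0)), D i) * B)).toAffine.Point =
        Module.rank ℤ (E A B).toAffine.Point := by
      rw [e, one_mul, one_mul]
    rw [← h4]
    exact Finset.single_le_sum (f := fun S : Finset (Fin 0) =>
      Module.rank ℤ (E ((∏ i ∈ S, D i) * A) ((∏ i ∈ S, D i) * B)).toAffine.Point)
      (fun _ _ => bot_le) (Finset.mem_univ _)
  | succ n ih =>
    intro D A B hA hB hAB hD
    refine (kd_step hT n D hA hB hAB (hD 0)).trans ?_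
    have i1 := ih (fun i => D i.succ) A B hA hB hAB (fun i => hD _)
    have i2 := ih (fun i => D i.succ) (D 0 * A) (D 0 * B) (mul_ne_zero (hD 0) hA)
      (mul_ne_zero (hD 0) hB) (fun h => hAB (mul_left_cancel₀ (hD 0) h)) (fun i => hD _)
    refine (add_le_add i1 i2).trans ?_
    set G : ℤ → Cardinal := fun z => Module.rank ℤ (E (z * A) (z * B)).toAffine.Point with hG
    set F : Finset (Fin (n + 1)) → Cardinal := fun S => G (∏ i ∈ S, D i) with hF
    have e1 : ∀ S : Finset (Fin n), Module.rank ℤ (E ((∏ i ∈ S, D i.succ) * A)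
        ((∏ i ∈ S, D i.succ) * B)).toAffine.Point = F (S.map (Fin.succEmb n)) := by
      intro S
      show G (∏ i ∈ S, D i.succ) = G (∏ i ∈ S.map (Fin.succEmb n), D i)
      rw [Finset.prod_map]
      rfl
    have h0 : ∀ S : Finset (Fin n), (0 : Fin (n + 1)) ∉ S.map (Fin.succEmb n) := by
      intro S h
      obtain ⟨k, _, hk⟩ := Finset.mem_map.1 h
      exact Fin.succ_ne_zero k hk
    have e2 : ∀ S : Finset (Fin n), Module.rank ℤ (E ((∏ i ∈ S, D i.succ) * (D 0 * A))
        ((∏ i ∈ S, D i.succ) * (D 0 * B))).toAffine.Point =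
          F (insert 0 (S.map (Fin.succEmb n))) := by
      intro S
      show _ = G (∏ i ∈ insert 0 (S.map (Fin.succEmb n)), D i)
      rw [Finset.prod_insert (h0 S), Finset.prod_map]
      show _ = G (D 0 * ∏ i ∈ S, D i.succ)
      have a1 : (∏ i ∈ S, D i.succ) * (D 0 * A) = D 0 * (∏ i ∈ S, D i.succ) * A := by ring
      have a2 : (∏ i ∈ S, D i.succ) * (D 0 * B) = D 0 * (∏ i ∈ S, D i.succ) * B := by ring
      rw [a1, a2]
    rw [Finset.sum_congr rfl (fun S _ => e1 S), Finset.sum_congr rfl (fun S _ => e2 S)]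
    have g1 : Function.Injective (fun S : Finset (Fin n) => S.map (Fin.succEmb n)) :=
      Finset.map_injective _
    have g2 : Function.Injective (fun S : Finset (Fin n) => insert 0 (S.map (Fin.succEmb n))) := by
      intro S S' h
      apply g1
      have := congrArg (fun T => T.erase (0 : Fin (n + 1))) h
      simpa [Finset.erase_insert (h0 S), Finset.erase_insert (h0 S')] using this
    have b1 : ∑ S : Finset (Fin n), F (S.map (Fin.succEmb n)) =
        ∑ T ∈ Finset.univ.image (fun S : Finset (Fin n) => S.map (Fin.succEmb n)), F T :=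
      (Finset.sum_image (fun x _ y _ h => g1 h)).symm
    have b2 : ∑ S : Finset (Fin n), F (insert 0 (S.map (Fin.succEmb n))) =
        ∑ T ∈ Finset.univ.image
          (fun S : Finset (Fin n) => insert 0 (S.map (Fin.succEmb n))), F T :=
      (Finset.sum_image (fun x _ y _ h => g2 h)).symm
    rw [b1, b2, ← Finset.sum_union]
    · exact Finset.sum_le_sum_of_subset (Finset.subset_univ _)
    · rw [Finset.disjoint_left]
      intro T hT1 hT2
      obtain ⟨S, _, rfl⟩ := Finset.mem_image.1 hT1
      obtain ⟨S', _, h⟩ := Finset.mem_image.1 hT2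
      apply h0 S
      have : (0 : Fin (n + 1)) ∈ insert 0 (S'.map (Fin.succEmb n)) := Finset.mem_insert_self _ _
      have h' : insert 0 (S'.map (Fin.succEmb n)) = S.map (Fin.succEmb n) := h
      rw [h'] at this
      exact this

theorem fg (A B : ℤ) (hA : A ≠ 0) (hB : B ≠ 0) (hAB : A ≠ B) :
    Module.Finite ℤ (E A B).toAffine.Point := by
  have h := (Pool.Agent.W214.RK.half A B hA hB hAB).1
  exact Module.Finite.iff_addGroup_fg.2 h

theorem rkk (hT : Pool.Agent.W262.SH.TWI) : Pool.Agent.W262.SH.RKK := by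
  intro n D A B hA hB hAB hD
  have h := rank_le hT n D A B hA hB hAB hD
  have hfin : ∀ S : Finset (Fin n),
      Module.Finite ℤ (E ((∏ i ∈ S, D i) * A) ((∏ i ∈ S, D i) * B)).toAffine.Point := by
    intro S
    have hS : (∏ i ∈ S, D i) ≠ 0 := Finset.prod_ne_zero_iff.2 (fun i _ => hD i)
    exact fg _ _ (mul_ne_zero hS hA) (mul_ne_zero hS hB) (fun h => hAB (mul_left_cancel₀ hS h))
  have h2 : ∑ S : Finset (Fin n),
      Module.rank ℤ (E ((∏ i ∈ S, D i) * A) ((∏ i ∈ S, D i) * B)).toAffine.Point =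
      ((∑ S : Finset (Fin n), Module.finrank ℤ
        (E ((∏ i ∈ S, D i) * A) ((∏ i ∈ S, D i) * B)).toAffine.Point : ℕ) : Cardinal) := by
    rw [Nat.cast_sum]
    refine Finset.sum_congr rfl fun S _ => ?_
    have := hfin S
    exact (Module.finrank_eq_rank _ _).symm
  rw [h2] at h
  exact Module.finrank_le_of_rank_le h

end Pool.Agent.W654.SHB
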